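import Pool.Agent.Y885.WI2
import Pool.Agent.Y885.LA2

set_option autoImplicit false

/-! Goldbach pairs in windows for all even integers near many given integers at the same time, after the addition (or the
subtraction) of the sum of very few elements of a given set. -/

namespace Pool.Agent.J4H77.GB

open Finset
open Pool.Agent.Y885
open Pool.Agent.H373R2.T7
open Pool.Agent.W93.DG
open Pool.Agent.W93.PG

/-- the union bound -/
lemma exists_good {ι κ : Type} (Ω : Finset ι) (p : ι → ℝ) (h1 : ∑ ω ∈ Ω, p ω = 1) (I : Finset κ)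
    (bad : κ → ι → Prop) [∀ i, DecidablePred (bad i)] (e : ℝ) (h0 : ∀ ω ∈ Ω, 0 ≤ p ω)
    (hb : ∀ i ∈ I, ∑ ω ∈ Ω, (if bad i ω then p ω else 0) ≤ e) (he : (I.card : ℝ) * e < 1) :
    ∃ ω ∈ Ω, ∀ i ∈ I, ¬ bad i ω := by
  classical
  by_contra hcon
  push Not at hcon
  have h2 : ∑ ω ∈ Ω, p ω ≤ ∑ ω ∈ Ω, ∑ i ∈ I, (if bad i ω then p ω else 0) := by
    apply sum_le_sum
    intro ω hω
    obtain ⟨i, hi, hbad⟩ := hcon ω hω
    have h3 : (if bad i ω then p ω else 0) = p ω := if_pos hbad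
    calc p ω = (if bad i ω then p ω else 0) := h3.symm
      _ ≤ ∑ i ∈ I, (if bad i ω then p ω else 0) :=
        single_le_sum (f := fun i => if bad i ω then p ω else 0) (fun j _ => by
          show 0 ≤ (if bad j ω then p ω else 0)
          split_ifs
          · exact h0 ω hω
          · exact le_rfl) hi
  rw [sum_comm] at h2
  have h4 : ∑ i ∈ I, ∑ ω ∈ Ω, (if bad i ω then p ω else 0) ≤ I.card * e := by
    calc _ ≤ ∑ _i ∈ I, e := sum_le_sum hb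
      _ = _ := by rw [sum_const, nsmul_eq_mul]
  linarith

theorem las_near (l Q T W A : ℕ) (hl : 2 ≤ l) (hQ : 1 ≤ Q) : ∃ C : ℝ, ∀ (H B m₀ : ℕ) (ε : ℝ), 0 < ε → ∀ (G : ℕ → Prop),
    (∀ m : ℕ, m₀ ≤ m → 2 ∣ m → WinP ε A m → G m) → ∃ N₀ : ℕ, ∀ D : Set ℕ,
    (∀ x : ℕ, 1 ≤ x → ∃ a ∈ D, x ≤ a ∧ a ≤ l * x) → ∀ N : ℕ, N₀ ≤ N → ∀ Y : Finset ℕ, (∀ y ∈ Y, N ≤ y ∧ y ≤ B * N) →
    (Y.card : ℝ) ≤ Real.log N ^ T →
    ∃ S : Finset ℕ, (∀ a ∈ S, a ∈ D ∧ Real.log N ^ H ≤ a ∧ (a : ℝ) ≤ N / Real.log N ^ H) ∧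
      (S.card : ℝ) ≤ C * Real.log (Real.log N) ^ 2 ∧ Q ∣ ∑ a ∈ S, a ∧
      ∀ y ∈ Y, ∀ m : ℕ, Even m →
        (|(((m : ℤ) - ((y : ℤ) + ((∑ a ∈ S, a : ℕ) : ℤ)) : ℤ) : ℝ)| ≤ Real.log N ^ W ∨
          |(((m : ℤ) - ((y : ℤ) - ((∑ a ∈ S, a : ℕ) : ℤ)) : ℤ) : ℝ)| ≤ Real.log N ^ W) → G m := by
  classical
  obtain ⟨U, hU⟩ : ∃ U, U = T + W + 1 := ⟨_, rfl⟩
  obtain ⟨b, hb, C, hC⟩ := las_lawP l Q hl hQ (2 * (U + 2 * (A + 1 + 4) + 9) + 6)
  refine ⟨C, fun H B m₀ ε hε G hG => ?_⟩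
  obtain ⟨c, N₀, h0⟩ := hC H (B + 4)
  obtain ⟨K₀, h1⟩ := tl_win0 b hb 20 c A 1 U m₀ (by norm_num) ε hε G hG
  obtain ⟨n1, hn1⟩ := ev_L' (8 * (Real.log b) ^ U + 3)
  obtain ⟨n2, hn2⟩ := ev_log' W 4
  refine ⟨N₀ + n1 + n2 + b ^ (K₀ + 8 * b ^ (B + 4) + 4) + 16, fun D hD N hN Y hY hYc => ?_⟩
  have hbn : 0 < b := by omega
  have hbr : (2 : ℝ) ≤ b := by exact_mod_cast hb
  obtain ⟨K, hK⟩ : ∃ K, K = Nat.log b N + 1 + (B + 2) := ⟨_, rfl⟩
  have hlogN : K₀ + 8 * b ^ (B + 4) + 4 ≤ Nat.log b N := Nat.le_log_of_pow_le (by omega) (by omega)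
  have hN0 : 0 < N := by omega
  have hK2 : Nat.log b N + 1 + (B + 4) = K + 2 := by omega
  have hlow : b ^ (Nat.log b N) ≤ N := Nat.pow_log_le_self b (by omega)
  have hup : N < b ^ (Nat.log b N + 1) := Nat.lt_pow_succ_log_self (by omega) _
  -- logarithms
  have hN16 : (16 : ℝ) ≤ N := by exact_mod_cast (by omega : 16 ≤ N)
  have hL := hn1 N (by omega)
  have hLW := hn2 N (by omega)
  obtain ⟨L, hLd⟩ : ∃ L, L = Real.log (N : ℝ) := ⟨_, rfl⟩
  rw [← hLd] at hL hLW hYc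
  have hlb0 : 0 < Real.log (b : ℝ) := Real.log_pos (by linarith)
  have hlbU : 0 ≤ Real.log (b : ℝ) ^ U := by positivity
  have hL3 : 3 ≤ L := by linarith
  have hL0 : 0 < L := by linarith
  have hJN : L ^ W ≤ N / 4 := by
    have h2 : √(N : ℝ) ≤ N := by
      rw [Real.sqrt_le_left (by linarith)]
      nlinarith
    linarith
  obtain ⟨J, hJ⟩ : ∃ J, J = ⌊L ^ W⌋₊ := ⟨_, rfl⟩
  have hJ1 : (J : ℝ) ≤ L ^ W := by rw [hJ]; exact Nat.floor_le (by positivity)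
  have hJ2 : 4 * J ≤ N := by
    have : 4 * (J : ℝ) ≤ N := by linarith
    exact_mod_cast this
  -- the law
  obtain ⟨n, Ω, pr, Sf, g1, g2, g3⟩ := h0 D hD N (by omega)
  rw [hK2] at g2
  have hpr : ∀ ω ∈ Ω, 0 ≤ pr := fun ω hω => g2.nonneg ω hω
  have hbB : B + 2 ≤ b ^ (B + 2) := by
    have : B + 2 < 2 ^ (B + 2) := Nat.lt_two_pow_self
    have h3 : 2 ^ (B + 2) ≤ b ^ (B + 2) := Nat.pow_le_pow_left hb _
    omega
  have hXK : (B + 2) * N ≤ b ^ K := by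
    calc (B + 2) * N ≤ b ^ (B + 2) * b ^ (Nat.log b N + 1) := Nat.mul_le_mul hbB hup.le
      _ = b ^ K := by rw [← pow_add, hK]; congr 1; ring
  have hone : ∀ (y : ℕ), y ∈ Y → ∀ j : ℤ, |j| ≤ J → ∀ s : Bool,
      ∑ ω ∈ Ω, (if ((2 : ℤ) ∣ y + j + (if s then (1 : ℤ) else -1) * ((∑ a ∈ Sf ω, a : ℕ) : ℤ) ∧
        ¬ G (y + j + (if s then (1 : ℤ) else -1) * ((∑ a ∈ Sf ω, a : ℕ) : ℤ)).toNat) then pr else 0) ≤ 1 / (K : ℝ) ^ U := by
    intro y hy j hj s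
    obtain ⟨y1, y2⟩ := hY y hy
    have hlaw : TLaw b 20 c (2 * (U + 2 * (A + 1 + 4) + 9) + 6) (K + 2) Ω (fun _ => pr)
        (fun ω => (if s then (1 : ℤ) else -1) * ((∑ a ∈ Sf ω, a : ℕ) : ℤ) + (y + j)) := by
      cases s
      · have h5 := (g2.neg).add ((y : ℤ) + j)
        refine h5.congr (fun ω _ => ?_)
        simp only [Bool.false_eq_true, if_false]
        ring
      · have h5 := g2.add ((y : ℤ) + j)
        refine h5.congr (fun ω _ => ?_)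
        simp only [if_true]
        ring
    have hbd : ∀ ω ∈ Ω, (N : ℤ) ≤ 4 * ((if s then (1 : ℤ) else -1) * ((∑ a ∈ Sf ω, a : ℕ) : ℤ) + (y + j)) ∧
        (if s then (1 : ℤ) else -1) * ((∑ a ∈ Sf ω, a : ℕ) : ℤ) + (y + j) ≤ ((B + 2) * N : ℕ) := by
      intro ω hω
      obtain ⟨_, _, s3, _⟩ := g3 ω hω
      have s4 : (2 : ℤ) * ((∑ a ∈ Sf ω, a : ℕ) : ℤ) ≤ N := by exact_mod_cast s3
      have s5 : (0 : ℤ) ≤ ((∑ a ∈ Sf ω, a : ℕ) : ℤ) := Nat.cast_nonneg _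
      have s6 : (N : ℤ) ≤ y := by exact_mod_cast y1
      have s7 : (y : ℤ) ≤ B * N := by exact_mod_cast y2
      have s8 : (4 : ℤ) * J ≤ N := by exact_mod_cast hJ2
      rw [abs_le] at hj
      push_cast at s4 s5 ⊢
      cases s
      · simp only [Bool.false_eq_true, if_false]
        constructor <;> linarith
      · simp only [if_true]
        constructor <;> linarith
    have h6 := h1 K (by omega) _ Ω (fun _ => pr) _ hlaw (by
      intro ω hω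
      obtain ⟨b1, b2⟩ := hbd ω hω
      have e1 : (((B + 2) * N : ℕ) : ℤ) ≤ (b : ℤ) ^ K := by exact_mod_cast hXK
      have e2 : (0 : ℤ) < N := by exact_mod_cast hN0
      rw [abs_le]
      constructor <;> linarith) (fun ω => (2 : ℤ) ∣ y + j + (if s then (1 : ℤ) else -1) * ((∑ a ∈ Sf ω, a : ℕ) : ℤ) ∧
        ¬ G (y + j + (if s then (1 : ℤ) else -1) * ((∑ a ∈ Sf ω, a : ℕ) : ℤ)).toNat) inferInstance (by
      intro ω hω hB
      obtain ⟨b1, b2⟩ := hbd ω hω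
      have e0 : (if s then (1 : ℤ) else -1) * ((∑ a ∈ Sf ω, a : ℕ) : ℤ) + (y + j) =
        y + j + (if s then (1 : ℤ) else -1) * ((∑ a ∈ Sf ω, a : ℕ) : ℤ) := by ring
      rw [e0] at b1 b2 ⊢
      have e2 : (0 : ℤ) < N := by exact_mod_cast hN0
      have e3 : 0 < y + j + (if s then (1 : ℤ) else -1) * ((∑ a ∈ Sf ω, a : ℕ) : ℤ) := by linarith
      refine ⟨e3, hB.1, ?_, hB.2⟩
      obtain ⟨hL1, _⟩ := logX b K hb
      have h4 : (4 * b ^ (B + 3) : ℝ) ≤ Real.log ((b ^ K : ℕ) : ℝ) := by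
        have h5 : 8 * b ^ (B + 3) ≤ 8 * b ^ (B + 4) := Nat.mul_le_mul_left _ (Nat.pow_le_pow_right hbn (by omega))
        have : ((8 * b ^ (B + 3) : ℕ) : ℝ) ≤ K := by exact_mod_cast (by omega : 8 * b ^ (B + 3) ≤ K)
        push_cast at this
        linarith
      have hb0 : (0 : ℝ) < b := by linarith
      have h5 : ((b ^ K : ℕ) : ℝ) / Real.log ((b ^ K : ℕ) : ℝ) ^ 1 ≤ ((b ^ K : ℕ) : ℝ) / (4 * b ^ (B + 3)) := by
        rw [pow_one]
        exact div_le_div_of_nonneg_left (Nat.cast_nonneg _) (by positivity) h4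
      have h7 : ((b ^ K : ℕ) : ℝ) / (4 * b ^ (B + 3)) = ((b ^ (Nat.log b N) : ℕ) : ℝ) / 4 := by
        have h8 : b ^ K = b ^ (Nat.log b N) * b ^ (B + 3) := by rw [← pow_add, hK]; congr 1; ring
        rw [h8]
        push_cast
        field_simp
      have h8 : ((b ^ (Nat.log b N) : ℕ) : ℝ) ≤ N := by exact_mod_cast hlow
      have h9 : ((N : ℤ) : ℝ) ≤ ((4 * (y + j + (if s then (1 : ℤ) else -1) * ((∑ a ∈ Sf ω, a : ℕ) : ℤ)) : ℤ) : ℝ) := by
        exact_mod_cast b1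
      rw [h7] at h5
      rw [Int.cast_mul] at h9
      have h10 : ((N : ℤ) : ℝ) = N := by norm_num
      rw [h10] at h9
      have h11 : (((4 : ℤ)) : ℝ) = 4 := by norm_num
      rw [h11] at h9
      linarith)
    exact h6
  -- the union bound
  obtain ⟨I, hI⟩ : ∃ I : Finset (ℕ × ℤ × Bool), I = Y ×ˢ (Icc (-(J : ℤ)) J) ×ˢ (univ : Finset Bool) := ⟨_, rfl⟩
  have hIc : (I.card : ℝ) ≤ Y.card * ((2 * J + 1) * 2) := by
    rw [hI, card_product, card_product, Int.card_Icc, card_univ, Fintype.card_bool]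
    have : ((J : ℤ) + 1 - (-(J : ℤ))).toNat = 2 * J + 1 := by omega
    rw [this]
    push_cast
    exact le_rfl
  have hKlog : L ≤ K * Real.log b := by
    have h2 : Real.log (N : ℝ) ≤ Real.log ((b ^ K : ℕ) : ℝ) := by
      apply Real.log_le_log (by linarith)
      have : N ≤ b ^ K := by
        calc N ≤ (B + 2) * N := Nat.le_mul_of_pos_left _ (by omega)
          _ ≤ b ^ K := hXK
      exact_mod_cast this
    rw [← hLd] at h2
    push_cast at h2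
    rw [Real.log_pow] at h2
    exact h2
  have hK0 : (0 : ℝ) < K := by exact_mod_cast (by omega : 0 < K)
  have hfin : (I.card : ℝ) * (1 / (K : ℝ) ^ U) < 1 := by
    have hW1 : 1 ≤ L ^ W := one_le_pow₀ (by linarith)
    have h2 : (I.card : ℝ) ≤ 6 * L ^ (T + W) := by
      have h3 : ((2 * J + 1) * 2 : ℝ) ≤ 6 * L ^ W := by linarith
      calc (I.card : ℝ) ≤ Y.card * ((2 * J + 1) * 2) := hIc
        _ ≤ L ^ T * (6 * L ^ W) := mul_le_mul hYc h3 (by positivity) (by positivity)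
        _ = _ := by rw [pow_add]; ring
    have h4 : L ^ U ≤ K ^ U * Real.log b ^ U := by
      rw [← mul_pow]
      exact pow_le_pow_left₀ hL0.le hKlog _
    have h5 : L ^ U = L ^ (T + W) * L := by rw [hU, pow_succ]
    have hTW : 0 < L ^ (T + W) := by positivity
    have h6 : 8 * Real.log b ^ U * L ^ (T + W) ≤ K ^ U * Real.log b ^ U := by
      calc 8 * Real.log b ^ U * L ^ (T + W) ≤ L * L ^ (T + W) := mul_le_mul_of_nonneg_right (by linarith) hTW.le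
        _ = L ^ U := by rw [h5]; ring
        _ ≤ _ := h4
    have hbU : 0 < Real.log b ^ U := by positivity
    have h7 : 8 * L ^ (T + W) ≤ K ^ U := by
      have : (8 * L ^ (T + W)) * Real.log b ^ U ≤ K ^ U * Real.log b ^ U := by linarith
      exact le_of_mul_le_mul_right this hbU
    rw [mul_one_div, div_lt_one (by positivity)]
    linarith
  obtain ⟨ω, hω, hgood⟩ := exists_good Ω (fun _ => pr) g1 I (fun i ω =>
    ((2 : ℤ) ∣ (i.1 : ℤ) + i.2.1 + (if i.2.2 then (1 : ℤ) else -1) * ((∑ a ∈ Sf ω, a : ℕ) : ℤ) ∧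
        ¬ G ((i.1 : ℤ) + i.2.1 + (if i.2.2 then (1 : ℤ) else -1) * ((∑ a ∈ Sf ω, a : ℕ) : ℤ)).toNat)) (1 / (K : ℝ) ^ U)
    (fun ω hω => hpr ω hω) (by
      intro i hi
      rw [hI, mem_product, mem_product, mem_Icc] at hi
      exact hone i.1 hi.1 i.2.1 (abs_le.2 hi.2.1) i.2.2) hfin
  obtain ⟨s1, s2, s3, s4⟩ := g3 ω hω
  refine ⟨Sf ω, s1, s2, s4, ?_⟩
  intro y hy m hm hor
  have hm2 : 2 ∣ m := even_iff_two_dvd.1 hm
  have hkey : ∀ (s : Bool), |(((m : ℤ) - ((y : ℤ) + (if s then (1 : ℤ) else -1) * ((∑ a ∈ Sf ω, a : ℕ) : ℤ)) : ℤ) : ℝ)| ≤ L ^ W → G m := by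
    intro s h2
    obtain ⟨j, hj⟩ : ∃ j : ℤ, j = (m : ℤ) - ((y : ℤ) + (if s then (1 : ℤ) else -1) * ((∑ a ∈ Sf ω, a : ℕ) : ℤ)) := ⟨_, rfl⟩
    rw [← hj] at h2
    have h3 : |j| ≤ J := by
      have h4 : ((j.natAbs : ℕ) : ℝ) ≤ L ^ W := by
        rw [Nat.cast_natAbs]
        push_cast
        exact h2
      have h5 : j.natAbs ≤ J := by rw [hJ]; exact Nat.le_floor h4
      rw [Int.abs_eq_natAbs]
      exact_mod_cast h5
    have h4 := hgood (y, j, s) (by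
      rw [hI, mem_product, mem_product, mem_Icc]
      exact ⟨hy, abs_le.1 h3, mem_univ _⟩)
    have h5 : (y : ℤ) + j + (if s then (1 : ℤ) else -1) * ((∑ a ∈ Sf ω, a : ℕ) : ℤ) = m := by rw [hj]; ring
    simp only at h4
    rw [h5, Int.toNat_natCast] at h4
    by_contra hcon
    exact h4 ⟨by exact_mod_cast hm2, hcon⟩
  rw [← hLd] at hor
  rcases hor with h | h
  · apply hkey true
    simp only [if_true, one_mul]
    exact h
  · apply hkey false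
    have e : (m : ℤ) - ((y : ℤ) + (if false then (1 : ℤ) else -1) * ((∑ a ∈ Sf ω, a : ℕ) : ℤ)) =
        (m : ℤ) - ((y : ℤ) - ((∑ a ∈ Sf ω, a : ℕ) : ℤ)) := by
      simp only [Bool.false_eq_true, if_false]
      ring
    rw [e]
    exact h

end Pool.Agent.J4H77.GB
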