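import Pool.Agent.Y885.WI4
import Pool.Agent.N469.TL.Law

set_option autoImplicit false

/-! Goldbach pairs in windows for all even integers near sums of independent random integers, and near integers with
restricted and prescribed digits. -/

namespace Pool.Agent.J4H77.GB

open Finset
open Pool.Agent.Y885
open Pool.Agent.H373R2.T7
open Pool.Agent.W93.PG

open Classical in
theorem rs_near (b B D A W U m₀ : ℕ) (hb : 2 ≤ b) (hB : 1 ≤ B) (η δ ε : ℝ) (hη : 0 < η) (hδ : 0 < δ) (hε : 0 < ε)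
    (P : ℕ → Prop) (hP : ∀ m : ℕ, m₀ ≤ m → 2 ∣ m → WinP ε A m → P m) :
    ∃ k₀ : ℕ, ∀ k : ℕ, k₀ ≤ k → ∀ (J : Finset ℕ) (s : ℕ → Finset ℤ) (p : ℕ → ℤ → ℝ) (c : ℤ),
    Rich δ D k J →
    (∀ j < k, (∀ x ∈ s j, 0 ≤ p j x ∧ |x| ≤ (B : ℤ) * (b : ℤ) ^ j) ∧ ∑ x ∈ s j, p j x = 1) →
    (∀ j ∈ J, ∀ y : ℤ, ∑ x ∈ s j, (if y ≤ x ∧ (B : ℤ) * (x - y) ≤ (b : ℤ) ^ j then p j x else 0) ≤ 1 - η) →
    |c| ≤ (B : ℤ) * (b : ℤ) ^ k →
    ∑ ω ∈ Fintype.piFinset (fun j : Fin k => s j), (if ∃ m : ℕ, 0 < m ∧ Even m ∧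
      |(m : ℤ) - (c + ∑ j : Fin k, ω j)| ≤ (k : ℤ) ^ W ∧ ¬ P m then ∏ j : Fin k, p j (ω j) else 0) ≤ 1 / (k : ℝ) ^ U := by
  obtain ⟨k₀, h0⟩ := rs_windows b hb (B + 1) D A (U + W + 1) m₀ (by omega) η δ ε hη hδ hε P hP
  obtain ⟨k₁, h1⟩ : ∃ k₁ : ℕ, ∀ k : ℕ, k₁ ≤ k → k ^ W ≤ b ^ k := by
    obtain ⟨k₁, h1⟩ := Pool.Agent.N469.TL.pow_two_ev' W
    exact ⟨k₁, fun k hk => (h1 k hk).trans (Nat.pow_le_pow_left hb k)⟩
  refine ⟨k₀ + k₁ + 3, fun k hk J s p c hR hps hsp hc => ?_⟩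
  have hk3 : (3 : ℝ) ≤ k := by exact_mod_cast (by omega : 3 ≤ k)
  have hk0 : (0 : ℝ) < k := by linarith
  have hkW := h1 k (by omega)
  have hbz : ∀ j : ℕ, (0 : ℤ) < (b : ℤ) ^ j := fun j => by
    have : (0 : ℤ) < b := by exact_mod_cast (by omega : 0 < b)
    positivity
  have hone : ∀ i ∈ Icc (-((k ^ W : ℕ) : ℤ)) ((k ^ W : ℕ) : ℤ), ∑ ω ∈ Fintype.piFinset (fun j : Fin k => s j),
      (if 0 < (c + i) + ∑ j : Fin k, ω j ∧ 2 ∣ (c + i) + ∑ j : Fin k, ω j ∧ ¬ P ((c + i) + ∑ j : Fin k, ω j).toNat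
        then ∏ j : Fin k, p j (ω j) else 0) ≤ 1 / (k : ℝ) ^ (U + W + 1) := by
    intro i hi
    rw [mem_Icc] at hi
    refine h0 k (by omega) J s p (c + i) hR ?_ ?_ ?_ _ _ (fun ω _ h => h)
    · intro j hj
      refine ⟨fun x hx => ⟨((hps j hj).1 x hx).1, (((hps j hj).1 x hx).2).trans ?_⟩, (hps j hj).2⟩
      apply mul_le_mul_of_nonneg_right _ (hbz j).le
      push_cast
      linarith
    · intro j hj y
      refine le_trans ?_ (hsp j hj y)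
      have hjk : j < k := hR.1 j hj
      apply sum_le_sum
      intro x hx
      have hp0 := ((hps j hjk).1 x hx).1
      by_cases h5 : y ≤ x ∧ ((B + 1 : ℕ) : ℤ) * (x - y) ≤ (b : ℤ) ^ j
      · rw [if_pos h5, if_pos]
        refine ⟨h5.1, le_trans ?_ h5.2⟩
        apply mul_le_mul_of_nonneg_right _ (by linarith [h5.1])
        push_cast
        linarith
      · rw [if_neg h5]
        split_ifs
        · exact hp0
        · exact le_rfl
    · have h5 : |i| ≤ (b : ℤ) ^ k := by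
        have h6 : ((k ^ W : ℕ) : ℤ) ≤ (b : ℤ) ^ k := by exact_mod_cast hkW
        rw [abs_le]
        constructor <;> linarith [hi.1, hi.2]
      calc |c + i| ≤ |c| + |i| := abs_add_le _ _
        _ ≤ (B : ℤ) * (b : ℤ) ^ k + (b : ℤ) ^ k := add_le_add hc h5
        _ = ((B + 1 : ℕ) : ℤ) * (b : ℤ) ^ k := by push_cast; ring
  have hnn : ∀ ω ∈ Fintype.piFinset (fun j : Fin k => s j), 0 ≤ ∏ j : Fin k, p j (ω j) := by
    intro ω hω
    rw [Fintype.mem_piFinset] at hω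
    exact prod_nonneg fun j _ => ((hps j j.2).1 _ (hω j)).1
  have hle : ∑ ω ∈ Fintype.piFinset (fun j : Fin k => s j), (if ∃ m : ℕ, 0 < m ∧ Even m ∧
      |(m : ℤ) - (c + ∑ j : Fin k, ω j)| ≤ (k : ℤ) ^ W ∧ ¬ P m then ∏ j : Fin k, p j (ω j) else 0) ≤
      ∑ ω ∈ Fintype.piFinset (fun j : Fin k => s j), ∑ i ∈ Icc (-((k ^ W : ℕ) : ℤ)) ((k ^ W : ℕ) : ℤ),
      (if 0 < (c + i) + ∑ j : Fin k, ω j ∧ 2 ∣ (c + i) + ∑ j : Fin k, ω j ∧ ¬ P ((c + i) + ∑ j : Fin k, ω j).toNat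
        then ∏ j : Fin k, p j (ω j) else 0) := by
    apply sum_le_sum
    intro ω hω
    have hpos := hnn ω hω
    have hterm : ∀ i ∈ Icc (-((k ^ W : ℕ) : ℤ)) ((k ^ W : ℕ) : ℤ), 0 ≤ (if 0 < (c + i) + ∑ j : Fin k, ω j ∧
        2 ∣ (c + i) + ∑ j : Fin k, ω j ∧ ¬ P ((c + i) + ∑ j : Fin k, ω j).toNat then ∏ j : Fin k, p j (ω j) else 0) := by
      intro i _
      split_ifs
      · exact hpos
      · exact le_rfl
    by_cases h5 : ∃ m : ℕ, 0 < m ∧ Even m ∧ |(m : ℤ) - (c + ∑ j : Fin k, ω j)| ≤ (k : ℤ) ^ W ∧ ¬ P m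
    · rw [if_pos h5]
      obtain ⟨m, m1, m2, m3, m4⟩ := h5
      have hi : (m : ℤ) - (c + ∑ j : Fin k, ω j) ∈ Icc (-((k ^ W : ℕ) : ℤ)) ((k ^ W : ℕ) : ℤ) := by
        rw [mem_Icc]
        push_cast
        exact abs_le.1 m3
      have h6 := single_le_sum (f := fun i : ℤ => (if 0 < (c + i) + ∑ j : Fin k, ω j ∧ 2 ∣ (c + i) + ∑ j : Fin k, ω j ∧
        ¬ P ((c + i) + ∑ j : Fin k, ω j).toNat then ∏ j : Fin k, p j (ω j) else 0)) hterm hi
      refine le_trans (le_of_eq ?_) h6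
      have e : c + ((m : ℤ) - (c + ∑ j : Fin k, ω j)) + ∑ j : Fin k, ω j = m := by ring
      show _ = (if 0 < c + ((m : ℤ) - (c + ∑ j : Fin k, ω j)) + ∑ j : Fin k, ω j ∧
        2 ∣ c + ((m : ℤ) - (c + ∑ j : Fin k, ω j)) + ∑ j : Fin k, ω j ∧
        ¬ P (c + ((m : ℤ) - (c + ∑ j : Fin k, ω j)) + ∑ j : Fin k, ω j).toNat then ∏ j : Fin k, p j (ω j) else 0)
      rw [e, Int.toNat_natCast, if_pos]
      exact ⟨by exact_mod_cast m1, by exact_mod_cast even_iff_two_dvd.1 m2, m4⟩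
    · rw [if_neg h5]
      exact sum_nonneg hterm
  refine hle.trans ?_
  rw [sum_comm]
  refine (sum_le_sum hone).trans ?_
  rw [sum_const, nsmul_eq_mul, Int.card_Icc]
  have hcard : ((((k ^ W : ℕ) : ℤ) + 1 - -((k ^ W : ℕ) : ℤ)).toNat : ℝ) ≤ (k : ℝ) ^ (W + 1) := by
    have h6 : (((k ^ W : ℕ) : ℤ) + 1 - -((k ^ W : ℕ) : ℤ)).toNat = 2 * k ^ W + 1 := by omega
    rw [h6]
    push_cast
    have h7 : (1 : ℝ) ≤ (k : ℝ) ^ W := one_le_pow₀ (by linarith)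
    rw [pow_succ]
    nlinarith
  calc _ ≤ (k : ℝ) ^ (W + 1) * (1 / (k : ℝ) ^ (U + W + 1)) := mul_le_mul_of_nonneg_right hcard (by positivity)
    _ = 1 / (k : ℝ) ^ U := by
      rw [show U + W + 1 = U + (W + 1) by ring, pow_add _ U]
      field_simp

open Classical in
/-- from random sums to integers with restricted and prescribed digits, for an arbitrary event -/
theorem digits_of (b : ℕ) (hb : 2 ≤ b) (U k : ℕ) (E : ℤ → Prop) (J : Finset ℕ)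
    (hrs : ∀ (s : ℕ → Finset ℤ) (p : ℕ → ℤ → ℝ),
    (∀ j < k, (∀ x ∈ s j, 0 ≤ p j x ∧ |x| ≤ (b : ℤ) * (b : ℤ) ^ j) ∧ ∑ x ∈ s j, p j x = 1) →
    (∀ j ∈ J, ∀ y : ℤ, ∑ x ∈ s j, (if y ≤ x ∧ (b : ℤ) * (x - y) ≤ (b : ℤ) ^ j then p j x else 0) ≤ 1 - 1 / 2) →
    ∑ ω ∈ Fintype.piFinset (fun j : Fin k => s j), (if E (∑ j : Fin k, ω j) then ∏ j : Fin k, p j (ω j) else 0) ≤
      1 / (k : ℝ) ^ U)
    (A : ℕ → Finset ℕ) (hA : ∀ j < k, (A j).Nonempty ∧ ∀ a ∈ A j, a < b) (hAJ : ∀ j ∈ J, 2 ≤ (A j).card) :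
    (((range (b ^ k)).filter (fun n : ℕ => (∀ j < k, n / b ^ j % b ∈ A j) ∧ E n)).card : ℝ) ≤
      (∏ j ∈ range k, ((A j).card : ℝ)) / (k : ℝ) ^ U := by
  have hb0 : 0 < b := by omega
  obtain ⟨s, hs⟩ : ∃ s : ℕ → Finset ℤ, s = fun j => (A j).image (fun a : ℕ => (a : ℤ) * (b : ℤ) ^ j) := ⟨_, rfl⟩
  obtain ⟨p, hp⟩ : ∃ p : ℕ → ℤ → ℝ, p = fun j _ => 1 / ((A j).card : ℝ) := ⟨_, rfl⟩
  have hbz : ∀ j : ℕ, (0 : ℤ) < (b : ℤ) ^ j := fun j => by positivity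
  have hinj : ∀ j : ℕ, Function.Injective (fun a : ℕ => (a : ℤ) * (b : ℤ) ^ j) := by
    intro j x y hxy
    have := mul_right_cancel₀ (hbz j).ne' hxy
    exact_mod_cast this
  have hA0 : ∀ j < k, (0 : ℝ) < (A j).card := fun j hj => by exact_mod_cast card_pos.2 (hA j hj).1
  have hmain := hrs s p (by
      intro j hj
      constructor
      · intro x hx
        rw [hp]
        refine ⟨by positivity, ?_⟩
        rw [hs] at hx
        obtain ⟨a, ha, rfl⟩ := mem_image.1 hx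
        have h1 := (hA j hj).2 a ha
        rw [abs_of_nonneg (by positivity)]
        apply mul_le_mul_of_nonneg_right _ (by positivity)
        exact_mod_cast h1.le
      · rw [hs, hp]
        simp only
        rw [sum_image (fun x _ y _ h => hinj j h), sum_const, nsmul_eq_mul]
        have := hA0 j hj
        field_simp) (by
      intro j hj y
      have h2 : (2 : ℝ) ≤ (A j).card := by exact_mod_cast hAJ j hj
      rw [hs, hp]
      simp only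
      rw [← sum_filter, sum_const, nsmul_eq_mul]
      have h3 : (((A j).image (fun a : ℕ => (a : ℤ) * (b : ℤ) ^ j)).filter (fun x => y ≤ x ∧ (b : ℤ) * (x - y) ≤ (b : ℤ) ^ j)).card ≤ 1 := by
        rw [card_le_one]
        intro x hx x' hx'
        rw [mem_filter] at hx hx'
        obtain ⟨a, _, rfl⟩ := mem_image.1 hx.1
        obtain ⟨a', _, rfl⟩ := mem_image.1 hx'.1
        have hbj := hbz j
        have h2b : (2 : ℤ) ≤ b := by exact_mod_cast hb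
        have key : ∀ u v : ℕ, y ≤ (u : ℤ) * (b : ℤ) ^ j → (b : ℤ) * ((v : ℤ) * (b : ℤ) ^ j - y) ≤ (b : ℤ) ^ j → v ≤ u := by
          intro u v h4 h5
          by_contra hcon
          push Not at hcon
          have h6 : (u : ℤ) + 1 ≤ v := by exact_mod_cast hcon
          have h7 : ((u : ℤ) + 1) * (b : ℤ) ^ j ≤ v * (b : ℤ) ^ j := mul_le_mul_of_nonneg_right h6 hbj.le
          have h8 : (b : ℤ) ^ j ≤ (v : ℤ) * (b : ℤ) ^ j - y := by linarith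
          have h9 : (b : ℤ) * (b : ℤ) ^ j ≤ (b : ℤ) * ((v : ℤ) * (b : ℤ) ^ j - y) := mul_le_mul_of_nonneg_left h8 (by positivity)
          nlinarith
        have h4 := key a a' hx.2.1 hx'.2.2
        have h5 := key a' a hx'.2.1 hx.2.2
        rw [le_antisymm h4 h5]
      have h4 : ((((A j).image (fun a : ℕ => (a : ℤ) * (b : ℤ) ^ j)).filter (fun x => y ≤ x ∧ (b : ℤ) * (x - y) ≤ (b : ℤ) ^ j)).card : ℝ) ≤ 1 := by
        exact_mod_cast h3
      have h5 : 1 / ((A j).card : ℝ) ≤ 1 / 2 := one_div_le_one_div_of_le (by norm_num) h2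
      have h6 : 0 ≤ 1 / ((A j).card : ℝ) := by positivity
      nlinarith)
  -- from the integers to the digits
  obtain ⟨Q, hQ⟩ : ∃ Q, Q = (range (b ^ k)).filter (fun n : ℕ => (∀ j < k, n / b ^ j % b ∈ A j) ∧ E n) := ⟨_, rfl⟩
  rw [← hQ]
  obtain ⟨φ, hφ⟩ : ∃ φ : ℕ → (Fin k → ℤ), φ = fun (n : ℕ) (j : Fin k) => ((n / b ^ (j : ℕ) % b : ℕ) : ℤ) * (b : ℤ) ^ (j : ℕ) := ⟨_, rfl⟩
  have hφs : ∀ n < b ^ k, ∑ j : Fin k, φ n j = (n : ℤ) := by
    intro n hn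
    have h1 := dig_sum b k n
    rw [Nat.mod_eq_of_lt hn] at h1
    rw [hφ]
    simp only
    exact_mod_cast h1
  have hpr : ∀ ω : Fin k → ℤ, ∏ j : Fin k, p j (ω j) = 1 / ∏ j ∈ range k, ((A j).card : ℝ) := by
    intro ω
    rw [hp]
    simp only
    rw [Fin.prod_univ_eq_prod_range (fun j => 1 / ((A j).card : ℝ)) k]
    simp only [one_div, prod_inv_distrib]
  have hP0 : 0 < ∏ j ∈ range k, ((A j).card : ℝ) := prod_pos fun j hj => hA0 j (mem_range.1 hj)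
  have h1 : (Q.card : ℝ) * (1 / ∏ j ∈ range k, ((A j).card : ℝ)) ≤ 1 / (k : ℝ) ^ U := by
    refine le_trans ?_ hmain
    rw [← nsmul_eq_mul, ← sum_const]
    have h2 : ∑ n ∈ Q, (1 / ∏ j ∈ range k, ((A j).card : ℝ)) = ∑ ω ∈ Q.image φ, (if E (∑ j : Fin k, ω j)
        then ∏ j : Fin k, p j (ω j) else 0) := by
      rw [sum_image]
      · apply sum_congr rfl
        intro n hn
        rw [hQ, mem_filter, mem_range] at hn
        rw [hφs n hn.1, if_pos hn.2.2, hpr]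
      · intro n hn n' hn' heq
        rw [mem_coe, hQ, mem_filter, mem_range] at hn hn'
        have h3 := hφs n hn.1
        rw [heq, hφs n' hn'.1] at h3
        exact_mod_cast h3.symm
    rw [h2]
    apply sum_le_sum_of_subset_of_nonneg
    · intro ω hω
      obtain ⟨n, hn, rfl⟩ := mem_image.1 hω
      rw [hQ, mem_filter, mem_range] at hn
      rw [Fintype.mem_piFinset]
      intro j
      rw [hs, hφ]
      exact mem_image.2 ⟨n / b ^ (j : ℕ) % b, hn.2.1 j j.2, rfl⟩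
    · intro ω _ _
      split_ifs
      · rw [hpr]; positivity
      · exact le_rfl
  rw [mul_one_div, div_le_iff₀ hP0] at h1
  rw [div_eq_mul_one_div, mul_comm]
  exact h1

open Classical in
/-- restricted and prescribed digits -/
theorem dig_near (b D A W U m₀ : ℕ) (hb : 2 ≤ b) (δ ε : ℝ) (hδ : 0 < δ) (hε : 0 < ε)
    (P : ℕ → Prop) (hP : ∀ m : ℕ, m₀ ≤ m → 2 ∣ m → WinP ε A m → P m) :
    ∃ k₀ : ℕ, ∀ k : ℕ, k₀ ≤ k → ∀ (J : Finset ℕ), Rich δ D k J →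
    ∀ A : ℕ → Finset ℕ, (∀ j < k, (A j).Nonempty ∧ ∀ a ∈ A j, a < b) → (∀ j ∈ J, 2 ≤ (A j).card) →
      (((range (b ^ k)).filter (fun v => (∀ j < k, v / b ^ j % b ∈ A j) ∧
        ∃ m : ℕ, 0 < m ∧ Even m ∧ |(m : ℤ) - v| ≤ (k : ℤ) ^ W ∧ ¬ P m)).card : ℝ) ≤
        (∏ j ∈ range k, ((A j).card : ℝ)) / (k : ℝ) ^ U := by
  obtain ⟨k₀, h0⟩ := rs_near b b D A W U m₀ hb (by omega) (1 / 2) δ ε (by norm_num) hδ hε P hP
  refine ⟨k₀, fun k hk J hJ A hA hAJ => ?_⟩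
  refine digits_of b hb U k (fun v => ∃ m : ℕ, 0 < m ∧ Even m ∧ |(m : ℤ) - v| ≤ (k : ℤ) ^ W ∧ ¬ P m) J ?_ A hA hAJ
  intro s p hs hp
  have h1 := h0 k hk J s p 0 hJ hs hp (by rw [abs_zero]; positivity)
  simp only [zero_add] at h1
  exact h1

end Pool.Agent.J4H77.GB
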